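import Pool.Agent.Helper92.CY.Defs
import Pool.Agent.Helper63.NPD.ZRoot

/-!
# CY-5: the curve over the line `<e0, e1>`
-/

set_option autoImplicit false

namespace Pool.Agent.Helper26.CY

open Pool.Agent.Helper37.RP Pool.Agent.Helper76.CY Pool.Agent.Helper92.CY

section ring

variable {S : Type*} [CommRing S]

/-- the sum of a symmetric tensor at the two points -/
theorem tensor_sum (a : Fin 4 → Fin 4 → Fin 4 → Fin 4 → S) (s w : S)
    (h1 : ∀ i j k l, a i j k l = a j i k l) (h2 : ∀ i j k l, a i j k l = a i j l k)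
    (q00 : ∀ k, a 0 0 0 k = 0) (q11 : ∀ k, a 1 1 1 k = 0) (q01 : a 0 1 1 1 = 0)
    (q1 : a 0 1 0 0 = 0) :
    ∑ i, ∑ j, ∑ k, ∑ l, a i j k l * ((![1, s, 0, 0] : Fin 4 → S) i *
      (![1, s, 0, 0] : Fin 4 → S) j * ((![1, -s ^ 2 * w, -s, s * w] : Fin 4 → S) k *
        (![1, -s ^ 2 * w, -s, s * w] : Fin 4 → S) l)) =
    s ^ 2 * ((a 0 0 3 3 + (2 * a 0 1 3 3 - 2 * a 0 0 1 3) * s +
      (a 0 0 1 1 - 4 * a 0 1 1 3 + a 1 1 3 3) * s ^ 2) * w ^ 2 +
      ((4 * a 0 1 0 3 - 2 * a 0 0 2 3) + (2 * a 0 0 1 2 - 4 * a 0 1 0 1 - 4 * a 0 1 2 3 +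
        2 * a 1 1 0 3) * s + (4 * a 0 1 1 2 - 2 * a 1 1 2 3) * s ^ 2) * w +
      ((a 0 0 2 2 - 4 * a 0 1 0 2 + a 1 1 0 0) + (2 * a 0 1 2 2 - 2 * a 1 1 0 2) * s +
        a 1 1 2 2 * s ^ 2)) := by
  have e : ∀ (f : Fin 4 → Fin 4 → S), ∑ i, ∑ j, f i j * ((![1, s, 0, 0] : Fin 4 → S) i *
      (![1, s, 0, 0] : Fin 4 → S) j) = f 0 0 + (f 0 1 + f 1 0) * s + f 1 1 * s ^ 2 := by
    intro f
    simp only [Fin.sum_univ_four, Matrix.cons_val_zero, Matrix.cons_val_one, Matrix.cons_val]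
    ring
  have e2 : ∀ (g : Fin 4 → Fin 4 → S), (∀ k l, g k l = g l k) →
      ∑ k, ∑ l, g k l * ((![1, -s ^ 2 * w, -s, s * w] : Fin 4 → S) k *
        (![1, -s ^ 2 * w, -s, s * w] : Fin 4 → S) l) =
      g 0 0 + g 1 1 * (s ^ 4 * w ^ 2) + g 2 2 * s ^ 2 + g 3 3 * (s ^ 2 * w ^ 2) -
        2 * g 0 1 * (s ^ 2 * w) - 2 * g 0 2 * s + 2 * g 0 3 * (s * w) + 2 * g 1 2 * (s ^ 3 * w) -
        2 * g 1 3 * (s ^ 3 * w ^ 2) - 2 * g 2 3 * (s ^ 2 * w) := by
    intro g hg
    simp only [Fin.sum_univ_four, Matrix.cons_val_zero, Matrix.cons_val_one, Matrix.cons_val]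
    rw [hg 1 0, hg 2 0, hg 3 0, hg 2 1, hg 3 1, hg 3 2]
    ring
  have e3 : ∑ i, ∑ j, ∑ k, ∑ l, a i j k l * ((![1, s, 0, 0] : Fin 4 → S) i *
      (![1, s, 0, 0] : Fin 4 → S) j * ((![1, -s ^ 2 * w, -s, s * w] : Fin 4 → S) k *
        (![1, -s ^ 2 * w, -s, s * w] : Fin 4 → S) l)) =
      ∑ i, ∑ j, (∑ k, ∑ l, a i j k l * ((![1, -s ^ 2 * w, -s, s * w] : Fin 4 → S) k *
        (![1, -s ^ 2 * w, -s, s * w] : Fin 4 → S) l)) * ((![1, s, 0, 0] : Fin 4 → S) i *
          (![1, s, 0, 0] : Fin 4 → S) j) := by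
    refine Finset.sum_congr rfl fun i _ => Finset.sum_congr rfl fun j _ => ?_
    rw [Finset.sum_mul]
    refine Finset.sum_congr rfl fun k _ => ?_
    rw [Finset.sum_mul]
    refine Finset.sum_congr rfl fun l _ => ?_
    ring
  rw [e3, e, e2 (fun k l => a 0 0 k l) (fun k l => h2 _ _ _ _),
    e2 (fun k l => a 0 1 k l) (fun k l => h2 _ _ _ _),
    e2 (fun k l => a 1 0 k l) (fun k l => h2 _ _ _ _),
    e2 (fun k l => a 1 1 k l) (fun k l => h2 _ _ _ _)]
  have r : ∀ k l, a 1 0 k l = a 0 1 k l := fun k l => h1 _ _ _ _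
  have r11 : a 1 1 0 1 = 0 := by rw [h2]; exact q11 0
  simp only [r]
  rw [q00 0, q00 1, q00 2, q00 3, q11 1, q11 2, q11 3, q01, q1, r11]
  ring

end ring

section series

variable {k : Type*} [Field k]

/-- CY-5. -/
theorem exists_curve [IsAlgClosed k] [CharZero k] {c : Ix → k} (hc : Gen c) :
    ∃ u w : PowerSeries k, u ^ 2 = ((q4 c : Polynomial k) : PowerSeries k) ∧
      w = (u - ((V1 c : Polynomial k) : PowerSeries k)) *
        (2 * ((U2 c : Polynomial k) : PowerSeries k))⁻¹ ∧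
      Near c ![1, PowerSeries.X, 0, 0]
        ![1, - PowerSeries.X ^ 2 * w, - PowerSeries.X, PowerSeries.X * w] := by
  have h2 : (2 : k) ≠ 0 := two_ne_zero
  have hcc : ∀ p : Polynomial k, PowerSeries.constantCoeff (p : PowerSeries k) = p.eval 0 := by
    intro p
    rw [Polynomial.constantCoeff_coe, Polynomial.coeff_zero_eq_eval_zero]
  obtain ⟨b, hb⟩ := IsAlgClosed.exists_pow_nat_eq ((q4 c).eval 0) (n := 2) (by norm_num)
  have hb0 : b ≠ 0 := by
    rintro rfl
    exact hc.h0 (by rw [← hb]; ring)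
  obtain ⟨u, hu, -⟩ := Pool.Agent.Helper63.NPD.exists_sqrt_series h2
    ((q4 c : Polynomial k) : PowerSeries k) b hb0 (by rw [hcc, hb])
  refine ⟨u, _, hu, rfl, ?_⟩
  set w : PowerSeries k := (u - ((V1 c : Polynomial k) : PowerSeries k)) *
    (2 * ((U2 c : Polynomial k) : PowerSeries k))⁻¹ with hw
  have hU0 : PowerSeries.constantCoeff (2 * ((U2 c : Polynomial k) : PowerSeries k)) ≠ 0 := by
    rw [map_mul, map_ofNat, hcc]
    have : (U2 c).eval 0 = pQ c 0 0 3 3 := by simp [U2]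
    rw [this, hc.std.qR]
    exact mul_ne_zero h2 (mul_ne_zero (mul_ne_zero h2 hc.hm) hc.hd)
  have hU : 2 * ((U2 c : Polynomial k) : PowerSeries k) * w =
      u - ((V1 c : Polynomial k) : PowerSeries k) := by
    rw [hw, mul_comm (u - _), ← mul_assoc, PowerSeries.mul_inv_cancel _ hU0, one_mul]
  have hq4 : ((q4 c : Polynomial k) : PowerSeries k) = ((V1 c : Polynomial k) : PowerSeries k) ^ 2 -
      4 * ((U2 c : Polynomial k) : PowerSeries k) * ((V0 c : Polynomial k) : PowerSeries k) := by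
    rw [q4]
    simp only [← Polynomial.coeToPowerSeries.ringHom_apply, map_sub, map_mul, map_pow, map_ofNat]
  have hroot : ((U2 c : Polynomial k) : PowerSeries k) * w ^ 2 +
      ((V1 c : Polynomial k) : PowerSeries k) * w + ((V0 c : Polynomial k) : PowerSeries k) = 0 := by
    have h4U : (2 * (2 * ((U2 c : Polynomial k) : PowerSeries k))) ≠ 0 := by
      intro h
      have h5 := congrArg PowerSeries.constantCoeff h
      rw [map_mul, map_ofNat, map_zero] at h5
      exact mul_ne_zero h2 hU0 h5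
    apply mul_left_cancel₀ h4U
    rw [mul_zero]
    linear_combination (2 * ((U2 c : Polynomial k) : PowerSeries k) * w + u +
      ((V1 c : Polynomial k) : PowerSeries k)) * hU + hu + hq4
  have hC : ∀ z : k, algebraMap k (PowerSeries k) z = PowerSeries.C z := fun z => rfl
  have hcU : ((U2 c : Polynomial k) : PowerSeries k) = PowerSeries.C (pQ c 0 0 3 3) +
      (2 * PowerSeries.C (pQ c 0 1 3 3) - 2 * PowerSeries.C (pQ c 0 0 1 3)) * PowerSeries.X +
      (PowerSeries.C (pQ c 0 0 1 1) - 4 * PowerSeries.C (pQ c 0 1 1 3) +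
        PowerSeries.C (pQ c 1 1 3 3)) * PowerSeries.X ^ 2 := by
    rw [U2]
    rw [← Polynomial.coeToPowerSeries.ringHom_apply]
    simp only [map_add, map_sub, map_mul, map_pow, map_ofNat]
    simp only [Polynomial.coeToPowerSeries.ringHom_apply, Polynomial.coe_C, Polynomial.coe_X]
  have hcV : ((V1 c : Polynomial k) : PowerSeries k) =
      (4 * PowerSeries.C (pQ c 0 1 0 3) - 2 * PowerSeries.C (pQ c 0 0 2 3)) +
      (2 * PowerSeries.C (pQ c 0 0 1 2) - 4 * PowerSeries.C (pQ c 0 1 0 1) -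
        4 * PowerSeries.C (pQ c 0 1 2 3) + 2 * PowerSeries.C (pQ c 1 1 0 3)) * PowerSeries.X +
      (4 * PowerSeries.C (pQ c 0 1 1 2) - 2 * PowerSeries.C (pQ c 1 1 2 3)) *
        PowerSeries.X ^ 2 := by
    rw [V1]
    rw [← Polynomial.coeToPowerSeries.ringHom_apply]
    simp only [map_add, map_sub, map_mul, map_pow, map_ofNat]
    simp only [Polynomial.coeToPowerSeries.ringHom_apply, Polynomial.coe_C, Polynomial.coe_X]
  have hcW : ((V0 c : Polynomial k) : PowerSeries k) =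
      (PowerSeries.C (pQ c 0 0 2 2) - 4 * PowerSeries.C (pQ c 0 1 0 2) +
        PowerSeries.C (pQ c 1 1 0 0)) +
      (2 * PowerSeries.C (pQ c 0 1 2 2) - 2 * PowerSeries.C (pQ c 1 1 0 2)) * PowerSeries.X +
      PowerSeries.C (pQ c 1 1 2 2) * PowerSeries.X ^ 2 := by
    rw [V0]
    rw [← Polynomial.coeToPowerSeries.ringHom_apply]
    simp only [map_add, map_sub, map_mul, map_pow, map_ofNat]
    simp only [Polynomial.coeToPowerSeries.ringHom_apply, Polynomial.coe_C, Polynomial.coe_X]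
  refine ⟨rfl, rfl, ?_, ?_, ?_, ?_, ?_⟩
  · intro i hi
    fin_cases i
    · exact absurd rfl hi
    · simp
    · simp
    · simp
  · intro i hi
    fin_cases i
    · exact absurd rfl hi
    · simp
    · simp
    · simp
  · rw [OnL]
    have e : ∀ i j, algebraMap k (PowerSeries k) (pL c i j) = PowerSeries.C (pL c i j) :=
      fun i j => rfl
    simp only [Fin.sum_univ_four, e, hc.std.l0, hc.std.l1, Matrix.cons_val_zero,
      Matrix.cons_val_one, Matrix.cons_val]
    simp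
    ring
  · rw [OnL]
    have e : ∀ i j, algebraMap k (PowerSeries k) (pL' c i j) = PowerSeries.C (pL' c i j) :=
      fun i j => rfl
    simp only [Fin.sum_univ_four, e, hc.std.m0, hc.std.m1, Matrix.cons_val_zero,
      Matrix.cons_val_one, Matrix.cons_val]
    simp
  · rw [OnQ]
    have hz := tensor_sum (fun i j l m => algebraMap k (PowerSeries k) (pQ c i j l m))
      PowerSeries.X w (fun i j l m => by rw [pQ_symm]) (fun i j l m => by rw [pQ_symm'])
      (fun l => by rw [hc.std.q00, map_zero]) (fun l => by rw [hc.std.q11, map_zero])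
      (by rw [hc.std.q01, map_zero]) (by rw [hc.std.q1, map_zero])
    rw [hz]
    simp only [hC]
    rw [← hcU, ← hcV, ← hcW, hroot, mul_zero]

end series

end Pool.Agent.Helper26.CY
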